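import Pool.Agent.H1.RO.AsyB

/-!
Exponential order of the dimension of sparse random graph orders.
-/

set_option autoImplicit false
set_option linter.unusedSectionVars false

namespace Pool.Agent.Results.MP_ef8d06_pr.Dimension

open Filter Finset Pool.Agent.H1.CC Pool.Agent.H1.RO

/-- **Exponential order of the dimension of random graph orders.** There are positive functions
`β, γ` on `[1,∞)`, both tending to `1` at infinity, such that for every sequence `1 ≤ c_n ≤ log n`,
with probability tending to one `e^{β(c_n) c_n} ≤ dim P_{G(n, c_n/n)} ≤ e^{γ(c_n) c_n}`. -/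
theorem result :
    ∃ β γ : ℝ → ℝ, (∀ x, 1 ≤ x → 0 < β x) ∧ (∀ x, 1 ≤ x → 0 < γ x) ∧
      Tendsto β atTop (nhds 1) ∧ Tendsto γ atTop (nhds 1) ∧
      ∀ c : ℕ → ℝ, (∀ᶠ n : ℕ in atTop, 1 ≤ c n ∧ c n ≤ Real.log n) →
        Tendsto (fun n : ℕ => gnpProb n (c n / n) (fun G =>
          Real.exp (β (c n) * c n) ≤ (dimension (graphOrder G) : ℝ) ∧
          (dimension (graphOrder G) : ℝ) ≤ Real.exp (γ (c n) * c n))) atTop (nhds 1) := by
  obtain ⟨β, hβ1, hβ2, hβ3⟩ := lower_all
  obtain ⟨γ, hγ1, hγ2, hγ3⟩ := upper_all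
  refine ⟨β, γ, hβ1, hγ1, hβ2, hγ2, ?_⟩
  intro c hc
  apply tendsto_one_of
  · filter_upwards [p_range hc] with n h
    rw [gnpProb_eq]
    exact Pr_le_one h.1 h.2 _
  · intro δ hδ
    filter_upwards [p_range hc, hc, hβ3 (δ / 2) (by linarith), hγ3 (δ / 2) (by linarith)]
      with n h h1 h2 h5
    have h3 := h2 (c n) h1.1 h1.2
    have h7 := h5 (c n) h1.1 h1.2
    have h4 : Pr (c n / n) (allE (Fin n)) (fun T => ¬ (Small T (Real.exp (β (c n) * c n)) ∨
        ¬ Has T (Real.exp (γ (c n) * c n)))) ≤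
        gnpProb n (c n / n) (fun G =>
        Real.exp (β (c n) * c n) ≤ (dimension (graphOrder G) : ℝ) ∧
          (dimension (graphOrder G) : ℝ) ≤ Real.exp (γ (c n) * c n)) := by
      rw [gnpProb_eq]
      apply Pr_mono h.1 h.2
      intro T _ hT
      push Not at hT
      exact ⟨le_dimension hT.1, dimension_le hT.2⟩
    rw [Pr_compl] at h4
    have h8 := Pr_or_le (S := allE (Fin n)) h.1 h.2
      (fun T => Small T (Real.exp (β (c n) * c n)))
      (fun T => ¬ Has T (Real.exp (γ (c n) * c n)))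
    linarith

end Pool.Agent.Results.MP_ef8d06_pr.Dimension
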